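import Pool.Agent.H93.TN.TargetsC

/-!
# tn_modules, module LH: low frequencies in the first block, high frequencies in the second block
-/

set_option autoImplicit false

namespace Pool.Agent.H14.TN

open MeasureTheory Set FourierTransform
open Pool.Agent.H93.TN Pool.Agent.H83.LS Pool.Agent.H93.AR Pool.Agent.H54.LS Pool.Agent.H14.LS
open Pool.Agent.H83.AR Pool.Agent.H84.BR Pool.Agent.H84.B2
open scoped ENNReal NNReal

theorem lh_unit {n : ℕ} (hn : 1 ≤ n) : ∃ u : EE n, ‖u‖ = 1 :=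
  ⟨EuclideanSpace.single ⟨0, hn⟩ 1, by simp⟩

theorem lh_ar (C1 C2 : ℝ≥0) {F X Y Q : ℝ} (hF : 0 ≤ F) (hX : 0 ≤ X) (hY : 0 ≤ Y) (hQ : 0 ≤ Q) :
    (C1 : ℝ≥0∞) * (ENNReal.ofReal F * (C2 * ENNReal.ofReal (2 * X)) + ENNReal.ofReal Y) *
      ENNReal.ofReal Q ≤ ((C1 * (2 * C2 + 1) : ℝ≥0) : ℝ≥0∞) * ENNReal.ofReal ((X * F + Y) * Q) := by
  have h1 : (0 : ℝ) ≤ C1 := C1.2
  have h2 : (0 : ℝ) ≤ C2 := C2.2
  rw [← ENNReal.ofReal_coe_nnreal (p := C1), ← ENNReal.ofReal_coe_nnreal (p := C2),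
    ← ENNReal.ofReal_coe_nnreal (p := C1 * (2 * C2 + 1)),
    ← ENNReal.ofReal_mul h2, ← ENNReal.ofReal_mul hF,
    ← ENNReal.ofReal_add (by positivity) hY, ← ENNReal.ofReal_mul h1,
    ← ENNReal.ofReal_mul (by positivity), ← ENNReal.ofReal_mul (by positivity)]
  refine ENNReal.ofReal_le_ofReal ?_
  push_cast
  have h3 : 0 ≤ (C1 : ℝ) * Q * (X * F + 2 * C2 * Y) := by positivity
  nlinarith

theorem lh_pow {lam ε τ γ : ℝ} (hlam : 1 ≤ lam) (hε : 0 < ε) (hτ : 0 ≤ τ) (hγ1 : γ ≤ 1) : lam ^ ε * (2 * lam ^ ε * τ) ^ γ ≤ 2 * (lam ^ (2 * ε) * τ ^ γ) := by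
  have h0 : (0 : ℝ) < lam := by linarith
  have h1 : 1 ≤ lam ^ ε := Real.one_le_rpow hlam hε.le
  have h2 : (2 * lam ^ ε * τ) ^ γ = (2 * lam ^ ε) ^ γ * τ ^ γ :=
    Real.mul_rpow (by positivity) hτ
  have h3 : (2 * lam ^ ε) ^ γ ≤ 2 * lam ^ ε := by
    calc (2 * lam ^ ε) ^ γ ≤ (2 * lam ^ ε) ^ (1 : ℝ) :=
          Real.rpow_le_rpow_of_exponent_le (by linarith) hγ1
      _ = _ := Real.rpow_one _
  have h4 : lam ^ (2 * ε) = lam ^ ε * lam ^ ε := by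
    rw [← Real.rpow_add h0]
    congr 1
    ring
  rw [h2, h4]
  have h5 : 0 ≤ τ ^ γ := Real.rpow_nonneg hτ _
  calc lam ^ ε * ((2 * lam ^ ε) ^ γ * τ ^ γ) ≤ lam ^ ε * ((2 * lam ^ ε) * τ ^ γ) := by gcongr
    _ = _ := by ring

theorem pf_lh (hOBM : T_OBM) (hBNM : T_BNM) (hMFX : T_MFX) : T_LH := by
  intro a b q ε N ha hb hq2 hq3 hε hε1
  obtain ⟨M, hM0, hM⟩ := hMFX a b ha hb
  obtain ⟨C1, hC1⟩ := hOBM a b q ε M N ha hb hq2 hε hM0
  obtain ⟨C2, hC2⟩ := hBNM a b q ε ha hb hq2 hq3 hε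
  refine ⟨C1 * (2 * C2 + 1), ?_⟩
  intro lam Lam L ρ φ σ A h hlam hsq h4 hL hσ hRG hh
  have hlam0 : 0 < lam := by linarith
  have hsq0 : 0 < Real.sqrt lam := Real.sqrt_pos.2 hlam0
  have hLam : 0 < Lam := hsq0.trans_le hsq
  have hσ0 : 0 < σ := lt_of_lt_of_le (by positivity) hσ
  have hA : 0 ≤ A := (norm_nonneg _).trans (hh.2.2 0)
  obtain ⟨u, hu⟩ := lh_unit ha
  obtain ⟨w0, hw0⟩ := lh_unit hb
  set c₁ : ℝ → ℝ := fun s => eta0 (s / Real.sqrt lam) with hc1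
  set c₂ : ℝ → ℝ := fun s => chi (s / Lam) with hc2
  have hBSa : BS a lam (Real.sqrt lam) c₁ (fun _ => 1) u :=
    ⟨hu, Or.inr ⟨rfl, fun s => rfl, fun ξ => rfl⟩⟩
  have hBSb : ∀ w : EE b, ‖w‖ = 1 → BS b lam Lam c₂ (sy b ch2 Lam (dl lam Lam) w) w :=
    fun w hw => ⟨hw, Or.inl ⟨hsq, h4, fun s => rfl, rfl⟩⟩
  have hMF := (hM lam (Real.sqrt lam) Lam c₁ c₂ (fun _ => 1) _ u w0 hlam hBSa
    (hBSb w0 hw0)).2.2.2 (fun s => rfl)
  set m : ℝ → EE (a + b) → ℂ := fun t ξ => mB a b c₁ c₂ (fun _ => 1) (fun _ => 1) lam t ξ with hm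
  have hmc : ∀ t, m t = mc a b c₁ c₂ lam t := by
    intro t
    funext ξ
    simp only [hm, mB]
    ring
  set γ : ℝ := 2 - q / 2 with hγ
  have hγ0 : 0 ≤ γ := by rw [hγ]; linarith
  have hγ1 : γ ≤ 1 := by rw [hγ]; linarith
  set X : ℝ := lam ^ (2 * ε) * (min 1 (σ * lam / Lam)) ^ γ with hX
  have hmin0 : 0 ≤ min 1 (σ * lam / Lam) := le_min zero_le_one (by positivity)
  have hX0 : 0 ≤ X := by positivity
  have hband : ∀ (w : EE b) (A' : ℝ) (g : EE (a + b) → ℂ), ‖w‖ = 1 → BI A' g →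
      ∫⁻ t in Icc (1 : ℝ) 2, ∫⁻ x in {x : EE (a + b) |
        |inner ℝ (p2 a b x) w| ≤ 2 * lam ^ ε * σ ∧ p1 a b x ∈ (univ : Set (EE a))},
        ‖MM (fun ξ => m t ξ * sy b ch2 Lam (dl lam Lam) w (p2 a b ξ)) g x‖ₑ ^ q ≤
        ((C2 : ℝ≥0∞) * ENNReal.ofReal (2 * X)) * ENNReal.ofReal (A' ^ (q - 2)) *
          ∫⁻ x, ‖g x‖ₑ ^ 2 := by
    intro w A' g hw hg
    have hA' : 0 ≤ A' := (norm_nonneg _).trans (hg.2.2 0)
    have hQ : 0 ≤ A' ^ (q - 2) := Real.rpow_nonneg hA' _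
    have hB := hC2 lam (Real.sqrt lam) Lam A' c₁ c₂ (fun _ => 1)
      (sy b ch2 Lam (dl lam Lam) w) u w g hlam hw hsq h4 (fun s => rfl) rfl hBSa hg
    have hsym : ∀ t, (fun ξ => m t ξ * sy b ch2 Lam (dl lam Lam) w (p2 a b ξ)) =
        mB a b c₁ c₂ (fun _ => 1) (sy b ch2 Lam (dl lam Lam) w) lam t := by
      intro t
      funext ξ
      simp only [hm, mB]
      ring
    simp only [hsym]
    rw [mul_assoc (C2 : ℝ≥0∞), ← ENNReal.ofReal_mul (by positivity)]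
    by_cases hc : 1 ≤ σ * lam / Lam
    · refine (lintegral_mono fun t => setLIntegral_le_lintegral _ _).trans (hB.1.trans ?_)
      gcongr
      have h5 : X = lam ^ (2 * ε) := by rw [hX, min_eq_left hc, Real.one_rpow, mul_one]
      rw [h5]
      have h6 : lam ^ ε ≤ lam ^ (2 * ε) := Real.rpow_le_rpow_of_exponent_le hlam (by linarith)
      have h7 : 0 ≤ lam ^ (2 * ε) := by positivity
      linarith
    · push Not at hc
      have h5 : 1 / Lam ≤ 2 * lam ^ ε * σ := by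
        have h6 : 1 ≤ lam ^ ε := Real.one_le_rpow hlam hε.le
        have h7 : σ ≤ 2 * lam ^ ε * σ := by nlinarith
        linarith
      have hB2 := hB.2 (2 * lam ^ ε * σ) h5
      refine (lintegral_mono fun t => lintegral_mono_set fun x hx => hx.1).trans (hB2.trans ?_)
      gcongr (C2 : ℝ≥0∞) * ENNReal.ofReal (?_ * _) * _
      have h6 : X = lam ^ (2 * ε) * (σ * lam / Lam) ^ γ := by rw [hX, min_eq_right hc.le]
      rw [h6]
      have h8 := lh_pow (lam := lam) (ε := ε) (τ := σ * lam / Lam) (γ := γ) hlam hε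
        (by positivity) hγ1
      have h9 : 2 * lam ^ ε * σ * lam / Lam = 2 * lam ^ ε * (σ * lam / Lam) := by ring
      rw [h9]
      exact h8
  have hmain := hC1 lam Lam L ρ φ σ A _ univ m h hlam hsq h4 hL hσ hRG MeasurableSet.univ hMF
    hband hh
  have hset : {x : EE (a + b) | ρ ≤ ‖p2 a b x‖ ∧ ‖p2 a b x‖ ≤ σ} =
      {x : EE (a + b) | ρ ≤ ‖p2 a b x‖ ∧ ‖p2 a b x‖ ≤ σ ∧ p1 a b x ∈ (univ : Set (EE a))} := by
    ext x
    simp
  simp only [← hmc]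
  rw [hset]
  refine hmain.trans ?_
  have hF : 0 ≤ FR b q lam Lam φ := by
    unfold FR
    have : 0 ≤ φ := by
      rcases hRG with h | h
      · rw [h.2]
        norm_num
      · refine le_trans ?_ h.2.2.2.1
        unfold dl
        positivity
    have h5 : 0 ≤ dl lam Lam := by
      unfold dl
      positivity
    positivity
  have hY : 0 ≤ (lam ^ N)⁻¹ := by positivity
  have hQ : 0 ≤ A ^ (q - 2) := Real.rpow_nonneg hA _
  have har := lh_ar C1 C2 hF hX0 hY hQ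
  have hfin : (lam ^ (2 * ε) * FR b q lam Lam φ * (min 1 (σ * lam / Lam)) ^ γ + (lam ^ N)⁻¹) =
      X * FR b q lam Lam φ + (lam ^ N)⁻¹ := by
    rw [hX]
    ring
  rw [hfin]
  gcongr

end Pool.Agent.H14.TN
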