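import Pool.Agent.H93.TN.TargetsC

/-!
# tn_modules, module PHL: one piece, high frequencies in the first block only
-/

set_option autoImplicit false

namespace Pool.Agent.H14.TN

open MeasureTheory Set FourierTransform
open Pool.Agent.H93.TN Pool.Agent.H83.LS Pool.Agent.H93.AR Pool.Agent.H54.LS Pool.Agent.H14.LS
open Pool.Agent.H83.AR Pool.Agent.H84.BR Pool.Agent.H84.B2
open scoped ENNReal NNReal

theorem phl_fourier_meas {d : ℕ} (f : EE d → ℂ) : Measurable (𝓕 f) := by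
  by_cases hf : Integrable f
  · exact fourier_meas' hf
  · have h0 : 𝓕 f = fun _ => 0 := by
      funext ξ
      rw [Real.fourier_eq]
      refine integral_undef ?_
      rwa [Real.fourierIntegral_convergent_iff]
    rw [h0]
    exact measurable_const

theorem cont_p1' (a b : ℕ) : Continuous (p1 a b) := by
  unfold p1
  fun_prop

theorem cont_p2' (a b : ℕ) : Continuous (p2 a b) := by
  unfold p2
  fun_prop

theorem mc_meas' (a b : ℕ) {c₁ c₂ : ℝ → ℝ} (h1 : Measurable c₁) (h2 : Measurable c₂) (lam : ℝ) :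
    Measurable fun q : ℝ × EE (a + b) => mc a b c₁ c₂ lam q.1 q.2 := by
  unfold mc
  refine (mT_meas lam).mul (Complex.measurable_ofReal.comp ?_)
  refine Measurable.mul ?_ ?_
  · exact h1.comp (((cont_p1' a b).norm.comp continuous_snd).measurable)
  · exact h2.comp (((cont_p2' a b).norm.comp continuous_snd).measurable)

/-- integrals over a set that is covered by finitely many sets -/
theorem cover_sum {α : Type*} [MeasurableSpace α] {μ : Measure α} (f : α → ℝ≥0∞) (B : Set α)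
    (S : ℕ → Set α) (J : ℕ) (h : ∀ x ∈ B, ∃ j < J, x ∈ S j) :
    ∫⁻ x in B, f x ∂μ ≤ ∑ j ∈ Finset.range J, ∫⁻ x in S j, f x ∂μ := by
  have h1 : B ⊆ ⋃ j ∈ Finset.range J, S j := by
    intro x hx
    obtain ⟨j, hj, hxj⟩ := h x hx
    exact mem_iUnion₂.2 ⟨j, Finset.mem_range.2 hj, hxj⟩
  refine (lintegral_mono_set h1).trans ?_
  clear h h1
  induction J with
  | zero => simp
  | succ J ih =>
    rw [Finset.sum_range_succ, Finset.range_add_one, Finset.set_biUnion_insert, union_comm]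
    refine (lintegral_union_le _ _ _).trans ?_
    gcongr

theorem mono_limit {α : Type*} [MeasurableSpace α] {μ : Measure α} [SFinite μ] {ν : Measure ℝ}
    (F : ℝ → α → ℝ≥0∞) (hF : Measurable (Function.uncurry F)) (B : ℕ → Set α) (hB : Monotone B)
    (hU : ⋃ n, B n = univ) (R : ℝ≥0∞)
    (h : ∀ n, ∫⁻ t, ∫⁻ x in B n, F t x ∂μ ∂ν ≤ R) : ∫⁻ t, ∫⁻ x, F t x ∂μ ∂ν ≤ R := by
  have h1 : ∀ t, ∫⁻ x, F t x ∂μ = ⨆ n, ∫⁻ x in B n, F t x ∂μ := by
    intro t
    rw [← setLIntegral_iUnion_of_directed _ hB.directed_le, hU, Measure.restrict_univ]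
  simp only [h1]
  rw [lintegral_iSup]
  · exact iSup_le h
  · intro n
    exact Measurable.lintegral_prod_right' (f := Function.uncurry F) hF
  · intro m n hmn t
    exact lintegral_mono_set (hB hmn)

theorem dl_pos' {lam Lam : ℝ} (hlam : 1 ≤ lam) (hLam : 0 < Lam) : 0 < dl lam Lam := by
  unfold dl
  have : 0 < Real.sqrt lam := Real.sqrt_pos.2 (by linarith)
  positivity

theorem FR_self {n : ℕ} {q lam Lam : ℝ} (hlam : 1 ≤ lam) (hLam : 0 < Lam) :
    FR n q lam Lam (dl lam Lam) = 1 := by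
  unfold FR
  rw [div_self (dl_pos' hlam hLam).ne', Real.one_rpow]

theorem pf_phl (hHL : T_HL) (hRGN : T_RGN) (hARI : T_ARI) : T_PHL := by
  intro a b q η ha hb hq2 hq3 hη
  set D : ℝ := 3 + 2 * ((a : ℝ) + b) with hD
  have hD0 : 0 < D := by positivity
  set ε : ℝ := min 1 (η / D) with hεd
  have hε : 0 < ε := lt_min one_pos (div_pos hη hD0)
  have hε1 : ε ≤ 1 := min_le_left _ _
  have hεη : D * ε ≤ η := by
    have h1 : ε ≤ η / D := min_le_right _ _
    rw [le_div_iff₀ hD0] at h1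
    linarith
  obtain ⟨C1, hC1⟩ := hHL a b q ε 0 ha hb hq2 hq3 hε hε1
  obtain ⟨C2, hC21, hC2⟩ := hRGN a ε ha hε
  set G : ℝ := (4096 * C2) ^ ((a : ℝ) + b) with hG
  have hG0 : 0 ≤ G := by positivity
  refine ⟨C1 * Real.toNNReal (C2 * (G + 1)), ?_⟩
  intro lam Lam L A h hlam hsq h4 hL hh
  have hlam0 : 0 < lam := by linarith
  have hsq0 : 0 < Real.sqrt lam := Real.sqrt_pos.2 hlam0
  have hsq1 : 1 ≤ Real.sqrt lam := Real.one_le_sqrt.2 hlam
  have hLam : 0 < Lam := hsq0.trans_le hsq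
  have hA : 0 ≤ A := (norm_nonneg _).trans (hh.2.2 0)
  have hQ : 0 ≤ A ^ (q - 2) := Real.rpow_nonneg hA _
  have hsq4 : Real.sqrt lam ≤ 4 * lam := by
    have := Real.sq_sqrt hlam0.le
    nlinarith
  set E : ℝ := lam ^ (ExR ((a : ℝ) + b - 1) q) * L ^ (2 - q / 2) with hE
  have hExR : 0 ≤ ExR ((a : ℝ) + b - 1) q := le_max_left _ _
  have hE1 : 1 ≤ E := by
    have h1 : 1 ≤ lam ^ (ExR ((a : ℝ) + b - 1) q) := Real.one_le_rpow hlam hExR
    have h2 : 1 ≤ L ^ (2 - q / 2) := Real.one_le_rpow hL (by linarith)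
    exact one_le_mul_of_one_le_of_one_le h1 h2
  have hdlS : dl lam (Real.sqrt lam) ≤ 1 := by
    unfold dl
    rw [div_le_one (by positivity)]
    linarith
  set I : ℝ≥0∞ := ∫⁻ x, ‖h x‖ₑ ^ 2 with hI
  set K0 : ℝ := (G + 1) * lam ^ (2 * ε + 2 * ε * ((a : ℝ) + b)) * E with hK0
  have hK00 : 0 ≤ K0 := by positivity
  set F : ℝ → EE (a + b) → ℝ≥0∞ := fun t x =>
    ‖MM (mc a b (fun s => chi (s / Lam)) (fun s => eta0 (s / Real.sqrt lam)) lam t)
      (A1 a b L h) x‖ₑ ^ q with hF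
  have hFm : Measurable (Function.uncurry F) := by
    have h1 : Measurable (fun s : ℝ => chi (s / Lam)) :=
      (chi_smooth.continuous.comp (continuous_id.div_const _)).measurable
    have h2 : Measurable (fun s : ℝ => eta0 (s / Real.sqrt lam)) :=
      (eta0_smooth.continuous.comp (continuous_id.div_const _)).measurable
    exact (MM_meas (mc_meas' a b h1 h2 lam) (phl_fourier_meas _)).enorm.pow_const _
  -- one region
  have hreg : ∀ ρ φ σ : ℝ, RG a ε lam Lam L ρ φ → 1 / Lam ≤ σ → dl lam Lam ≤ φ → φ ≤ 1 →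
      (2 ≤ a → (φ / dl lam Lam) ^ 2 * min 1 (σ * lam / Lam) ≤ C2 * lam ^ (2 * ε) * L) →
      ∫⁻ t in Icc (1 : ℝ) 2, ∫⁻ x in {x : EE (a + b) | ρ ≤ ‖p1 a b x‖ ∧ ‖p1 a b x‖ ≤ σ}, F t x ≤
        C1 * ENNReal.ofReal (K0 * A ^ (q - 2)) * I := by
    intro ρ φ σ hRG hσ hφ hφ1 hsize
    have hσ0 : 0 < σ := lt_of_lt_of_le (by positivity) hσ
    refine (hC1 lam Lam L ρ φ σ A h hlam hsq h4 hL hσ hRG hh).trans ?_
    have hT0 : 0 < min 1 (σ * lam / Lam) := lt_min one_pos (by positivity)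
    have hT1 : min 1 (σ * lam / Lam) ≤ 1 := min_le_left _ _
    have hA2 := hARI a b q ha hb hq2 hq3 C2 lam L ε Lam (Real.sqrt lam) φ
      (dl lam (Real.sqrt lam)) (min 1 (σ * lam / Lam)) 1 hC21 hlam hL hε hsq h4 le_rfl hsq4
      hφ hφ1 le_rfl hdlS hT0 hT1 one_pos le_rfl hsize (fun _ => by
        rw [div_self (dl_pos' hlam hsq0).ne']
        have h1 : 1 ≤ lam ^ (2 * ε) := Real.one_le_rpow hlam (by linarith)
        have h2 : 1 ≤ C2 * lam ^ (2 * ε) := one_le_mul_of_one_le_of_one_le hC21 h1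
        have h3 : 1 ≤ C2 * lam ^ (2 * ε) * L := one_le_mul_of_one_le_of_one_le h2 hL
        linarith)
    rw [FR_self hlam hsq0, mul_one, min_eq_left hT1, min_eq_right hT1] at hA2
    have h5 : lam ^ (2 * ε) * FR a q lam Lam φ * (min 1 (σ * lam / Lam)) ^ (2 - q / 2) +
        (lam ^ 0)⁻¹ ≤ K0 := by
      have e1 : lam ^ (2 * ε + 2 * ε * ((a : ℝ) + b)) =
          lam ^ (2 * ε) * lam ^ (2 * ε * ((a : ℝ) + b)) := Real.rpow_add hlam0 _ _
      have h6 : 1 ≤ lam ^ (2 * ε + 2 * ε * ((a : ℝ) + b)) :=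
        Real.one_le_rpow hlam (by positivity)
      have h7 : 1 ≤ lam ^ (2 * ε + 2 * ε * ((a : ℝ) + b)) * E :=
        one_le_mul_of_one_le_of_one_le h6 hE1
      have h8 : lam ^ (2 * ε) * FR a q lam Lam φ * (min 1 (σ * lam / Lam)) ^ (2 - q / 2) ≤
          G * (lam ^ (2 * ε + 2 * ε * ((a : ℝ) + b)) * E) := by
        rw [e1, mul_assoc (lam ^ (2 * ε))]
        calc lam ^ (2 * ε) * (FR a q lam Lam φ * (min 1 (σ * lam / Lam)) ^ (2 - q / 2))
            ≤ lam ^ (2 * ε) * (G * lam ^ (2 * ε * ((a : ℝ) + b)) * E) := by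
              refine mul_le_mul_of_nonneg_left hA2 (by positivity)
          _ = _ := by ring
      rw [pow_zero, inv_one, hK0]
      calc _ ≤ G * (lam ^ (2 * ε + 2 * ε * ((a : ℝ) + b)) * E) +
            lam ^ (2 * ε + 2 * ε * ((a : ℝ) + b)) * E := add_le_add h8 h7
        _ = _ := by ring
    gcongr
  -- balls
  have key : ∀ n : ℕ, ∫⁻ t in Icc (1 : ℝ) 2, ∫⁻ x in {x : EE (a + b) | ‖p1 a b x‖ ≤ (n : ℝ) + 4},
      F t x ≤ ((C1 * Real.toNNReal (C2 * (G + 1)) : ℝ≥0) : ℝ≥0∞) *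
        ENNReal.ofReal (lam ^ (ExR ((a : ℝ) + b - 1) q + η) * L ^ (2 - q / 2) * A ^ (q - 2)) *
        I := by
    intro n
    obtain ⟨J, ρ, φ, σ, hJ, hcov, hr⟩ := hC2 lam Lam L ((n : ℝ) + 4) hlam hsq h4 hL (by
      have : (0 : ℝ) ≤ n := n.cast_nonneg
      linarith)
    set S : ℕ → Set (EE (a + b)) := fun j =>
      {x : EE (a + b) | ρ j ≤ ‖p1 a b x‖ ∧ ‖p1 a b x‖ ≤ σ j} with hS
    have hSm : ∀ j, Measurable fun t => ∫⁻ x in S j, F t x := fun j =>
      Measurable.lintegral_prod_right' (f := Function.uncurry F) hFm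
    have h1 : ∀ t, ∫⁻ x in {x : EE (a + b) | ‖p1 a b x‖ ≤ (n : ℝ) + 4}, F t x ≤
        ∑ j ∈ Finset.range J, ∫⁻ x in S j, F t x := fun t =>
      cover_sum _ _ S J fun x hx => by
        obtain ⟨j, hj, h2, h3⟩ := hcov ‖p1 a b x‖ (norm_nonneg _) hx
        exact ⟨j, hj, h2, h3⟩
    calc ∫⁻ t in Icc (1 : ℝ) 2, ∫⁻ x in {x : EE (a + b) | ‖p1 a b x‖ ≤ (n : ℝ) + 4}, F t x
        ≤ ∫⁻ t in Icc (1 : ℝ) 2, ∑ j ∈ Finset.range J, ∫⁻ x in S j, F t x :=
          lintegral_mono fun t => h1 t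
      _ = ∑ j ∈ Finset.range J, ∫⁻ t in Icc (1 : ℝ) 2, ∫⁻ x in S j, F t x :=
          lintegral_finsetSum _ fun j _ => hSm j
      _ ≤ ∑ j ∈ Finset.range J, C1 * ENNReal.ofReal (K0 * A ^ (q - 2)) * I := by
          refine Finset.sum_le_sum fun j hj => ?_
          obtain ⟨g1, g2, g3, g4, g5⟩ := hr j (Finset.mem_range.1 hj)
          exact hreg _ _ _ g1 g2 g3 g4 g5
      _ = ENNReal.ofReal (J : ℝ) * (C1 * ENNReal.ofReal (K0 * A ^ (q - 2)) * I) := by
          rw [Finset.sum_const, Finset.card_range, nsmul_eq_mul, ENNReal.ofReal_natCast]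
      _ ≤ ENNReal.ofReal (C2 * lam ^ ε) * (C1 * ENNReal.ofReal (K0 * A ^ (q - 2)) * I) := by
          gcongr
      _ = C1 * (ENNReal.ofReal (C2 * lam ^ ε) * ENNReal.ofReal (K0 * A ^ (q - 2))) * I := by
          ring
      _ ≤ C1 * (ENNReal.ofReal (C2 * (G + 1)) * ENNReal.ofReal
            (lam ^ (ExR ((a : ℝ) + b - 1) q + η) * L ^ (2 - q / 2) * A ^ (q - 2))) * I := by
          rw [← ENNReal.ofReal_mul (by positivity), ← ENNReal.ofReal_mul (by positivity)]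
          gcongr (C1 : ℝ≥0∞) * ENNReal.ofReal ?_ * _
          have e2 : lam ^ ε * lam ^ (2 * ε + 2 * ε * ((a : ℝ) + b)) = lam ^ (D * ε) := by
            rw [← Real.rpow_add hlam0]
            congr 1
            rw [hD]
            ring
          have h6 : lam ^ (D * ε) ≤ lam ^ η := Real.rpow_le_rpow_of_exponent_le hlam hεη
          have e3 : lam ^ (ExR ((a : ℝ) + b - 1) q + η) =
              lam ^ (ExR ((a : ℝ) + b - 1) q) * lam ^ η := Real.rpow_add hlam0 _ _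
          have e4 : C2 * lam ^ ε * (K0 * A ^ (q - 2)) =
              (C2 * (G + 1) * E * A ^ (q - 2)) * lam ^ (D * ε) := by
            rw [hK0, ← e2]
            ring
          have e5 : C2 * (G + 1) * (lam ^ (ExR ((a : ℝ) + b - 1) q + η) * L ^ (2 - q / 2) *
              A ^ (q - 2)) = (C2 * (G + 1) * E * A ^ (q - 2)) * lam ^ η := by
            rw [e3, hE]
            ring
          rw [e4, e5]
          exact mul_le_mul_of_nonneg_left h6 (by positivity)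
      _ = _ := by
          rw [ENNReal.coe_mul, ← mul_assoc (C1 : ℝ≥0∞)]
          rfl
  refine mono_limit F hFm (fun n : ℕ => {x : EE (a + b) | ‖p1 a b x‖ ≤ (n : ℝ) + 4}) ?_ ?_ _ key
  · intro m n hmn x hx
    have h1 : ‖p1 a b x‖ ≤ (m : ℝ) + 4 := hx
    have h2 : (m : ℝ) ≤ n := by exact_mod_cast hmn
    show ‖p1 a b x‖ ≤ (n : ℝ) + 4
    linarith
  · rw [eq_univ_iff_forall]
    intro x
    obtain ⟨n, hn⟩ := exists_nat_ge ‖p1 a b x‖
    exact mem_iUnion.2 ⟨n, show ‖p1 a b x‖ ≤ (n : ℝ) + 4 by linarith⟩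

end Pool.Agent.H14.TN
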