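import Pool.Agent.H93.TN.TargetsA

/-!
# tn_modules, module RAD: kernels of radial cutoffs
-/

set_option autoImplicit false

namespace Pool.Agent.H14.TN

open MeasureTheory Set FourierTransform
open Pool.Agent.H93.TN Pool.Agent.H83.LS Pool.Agent.H93.AR Pool.Agent.H54.LS Pool.Agent.H14.LS
open Pool.Agent.H83.AR Pool.Agent.H84.BR Pool.Agent.H84.B2
open scoped ENNReal NNReal SchwartzMap

theorem rad_smooth (n : ℕ) {ψ : ℝ → ℝ} (h : RC ψ) {Lam : ℝ} (hL : 0 < Lam) :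
    ContDiff ℝ (⊤ : ℕ∞) (fun ξ : EE n => ((ψ (‖ξ‖ / Lam) : ℝ) : ℂ)) := by
  rw [contDiff_iff_contDiffAt]
  intro ξ
  by_cases hξ : ξ = 0
  · subst hξ
    refine (contDiffAt_const (c := (0 : ℂ))).congr_of_eventuallyEq ?_
    have h1 : ∀ᶠ η : EE n in nhds 0, ‖η‖ < Lam / 8 := by
      have h2 : ContinuousAt (fun η : EE n => ‖η‖) 0 := continuous_norm.continuousAt
      have h3 : ‖(0 : EE n)‖ < Lam / 8 := by
        rw [norm_zero]
        positivity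
      exact h2.eventually_lt continuousAt_const h3
    filter_upwards [h1] with η hη
    have h4 : ψ (‖η‖ / Lam) = 0 := by
      by_contra hne
      have h5 := (h.2 _ hne).1
      rw [le_div_iff₀ hL] at h5
      linarith
    rw [h4]
    simp
  · have h1 : ContDiffAt ℝ (⊤ : ℕ∞) (fun ξ : EE n => ‖ξ‖ / Lam) ξ :=
      (contDiffAt_norm ℝ hξ).div_const Lam
    have h2 : ContDiffAt ℝ (⊤ : ℕ∞) (fun ξ : EE n => ψ (‖ξ‖ / Lam)) ξ :=
      h.1.contDiffAt.comp ξ h1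
    exact Complex.ofRealCLM.contDiff.contDiffAt.comp ξ h2

theorem rad_compact (n : ℕ) {ψ : ℝ → ℝ} (h : RC ψ) {Lam : ℝ} (hL : 0 < Lam) :
    HasCompactSupport (fun ξ : EE n => ((ψ (‖ξ‖ / Lam) : ℝ) : ℂ)) := by
  refine HasCompactSupport.intro (isCompact_closedBall (0 : EE n) (8 * Lam)) ?_
  intro ξ hξ
  rw [mem_closedBall_zero_iff] at hξ
  push Not at hξ
  have h4 : ψ (‖ξ‖ / Lam) = 0 := by
    by_contra hne
    have h5 := (h.2 _ hne).2
    rw [div_le_iff₀ hL] at h5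
    linarith
  rw [h4]
  simp

theorem psi_bdd {ψ : ℝ → ℝ} (h : RC ψ) : ∃ C : ℝ, 0 ≤ C ∧ ∀ s, |ψ s| ≤ C := by
  obtain ⟨C, hC⟩ := (isCompact_Icc (a := (1 / 8 : ℝ)) (b := 8)).exists_bound_of_continuousOn
    (h.1.continuous.continuousOn)
  refine ⟨max C 0, le_max_right _ _, fun s => ?_⟩
  by_cases hs : ψ s = 0
  · rw [hs, abs_zero]
    exact le_max_right _ _
  · exact (hC s (h.2 s hs)).trans (le_max_left _ _)

/-- the scaling of the kernel -/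
theorem rad_scale (n : ℕ) (ψ : ℝ → ℝ) {Lam : ℝ} (hL : 0 < Lam) (x : EE n) :
    MK (fun ξ : EE n => ((ψ (‖ξ‖ / Lam) : ℝ) : ℂ)) x =
      ((Lam ^ n : ℝ) : ℂ) * MK (fun ξ : EE n => ((ψ ‖ξ‖ : ℝ) : ℂ)) (Lam • x) := by
  have h := Measure.integral_comp_smul (volume : Measure (EE n))
    (fun ξ : EE n => e (inner ℝ x ξ) * ((ψ (‖ξ‖ / Lam) : ℝ) : ℂ)) Lam
  rw [finrank_euclideanSpace_fin, abs_of_pos (by positivity)] at h
  have h2 : (∫ ξ : EE n, e (inner ℝ x (Lam • ξ)) * ((ψ (‖Lam • ξ‖ / Lam) : ℝ) : ℂ)) =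
      MK (fun ξ : EE n => ((ψ ‖ξ‖ : ℝ) : ℂ)) (Lam • x) := by
    unfold MK
    congr 1
    funext ξ
    rw [real_inner_smul_right, real_inner_smul_left, norm_smul, Real.norm_of_nonneg hL.le,
      mul_div_cancel_left₀ _ hL.ne']
  rw [← h2, h, Complex.real_smul, ← mul_assoc]
  push_cast
  rw [mul_inv_cancel₀ (by
    have : (Lam : ℂ) ≠ 0 := by exact_mod_cast hL.ne'
    exact pow_ne_zero _ this), one_mul]
  rfl

theorem rad_decay (n K : ℕ) {ψ : ℝ → ℝ} (h : RC ψ) : ∃ D : ℝ, 0 ≤ D ∧ ∀ y : EE n,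
    (1 + ‖y‖) ^ K * ‖MK (fun ξ : EE n => ((ψ ‖ξ‖ : ℝ) : ℂ)) y‖ ≤ D := by
  have h1 := rad_smooth n h one_pos
  have h2 := rad_compact n h one_pos
  simp only [div_one] at h1 h2
  set Φ : 𝓢(EE n, ℂ) := h2.toSchwartzMap h1 with hΦ
  have h3 : ∀ y : EE n, MK (fun ξ : EE n => ((ψ ‖ξ‖ : ℝ) : ℂ)) y = (𝓕⁻ Φ) y := by
    intro y
    rw [SchwartzMap.fourierInv_coe, Real.fourierInv_eq']
    unfold MK e
    congr 1
    funext ξ
    rw [real_inner_comm]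
    rfl
  refine ⟨2 ^ K * (Finset.Iic (K, 0)).sup (fun m => SchwartzMap.seminorm ℝ m.1 m.2) (𝓕⁻ Φ),
    by positivity, fun y => ?_⟩
  have h4 := SchwartzMap.one_add_le_sup_seminorm_apply (𝕜 := ℝ) (m := (K, 0)) (k := K) (n := 0)
    le_rfl le_rfl (𝓕⁻ Φ) y
  rw [norm_iteratedFDeriv_zero] at h4
  rw [h3]
  exact h4

theorem lint_smul (n : ℕ) (g : EE n → ℝ≥0∞) {Lam : ℝ} (hL : 0 < Lam) :
    ∫⁻ x : EE n, g (Lam • x) = ENNReal.ofReal ((Lam ^ n)⁻¹) * ∫⁻ x, g x := by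
  have h1 := Measure.map_addHaar_smul (volume : Measure (EE n)) hL.ne'
  rw [finrank_euclideanSpace_fin, abs_of_pos (by positivity)] at h1
  have h2 : ∫⁻ x : EE n, g (Lam • x) =
      ∫⁻ y, g y ∂(Measure.map (fun x : EE n => Lam • x) volume) := by
    have := lintegral_map_equiv (μ := (volume : Measure (EE n))) g
      (MeasurableEquiv.smul₀ Lam hL.ne')
    exact this.symm
  rw [h2]
  have h3 : (fun x : EE n => Lam • x) = (Lam • ·) := rfl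
  rw [h3, h1, lintegral_smul_measure, smul_eq_mul]

theorem pf_rad : T_RAD := by
  intro n N ψ hn hψ
  obtain ⟨D, hD, hdec⟩ := rad_decay n (N + (n + 1)) hψ
  obtain ⟨C1, hC1, hb⟩ := psi_bdd hψ
  have hfin : ∫⁻ x : EE n, ENNReal.ofReal ((1 + ‖x‖) ^ (-((n : ℝ) + 1))) < ∞ :=
    finite_integral_one_add_norm (by rw [finrank_euclideanSpace_fin]; linarith)
  set J := (∫⁻ x : EE n, ENNReal.ofReal ((1 + ‖x‖) ^ (-((n : ℝ) + 1)))).toReal with hJ
  have hJ0 : 0 ≤ J := ENNReal.toReal_nonneg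
  have hJe : ∫⁻ x : EE n, ENNReal.ofReal ((1 + ‖x‖) ^ (-((n : ℝ) + 1))) = ENNReal.ofReal J :=
    (ENNReal.ofReal_toReal hfin.ne).symm
  have hDJ : 0 ≤ D * J := mul_nonneg hD hJ0
  refine ⟨D + C1 + D * J, by positivity, ?_⟩
  intro Lam hL
  refine ⟨⟨rad_smooth n hψ hL, rad_compact n hψ hL⟩, fun s => (hb s).trans (by linarith), ?_, ?_⟩
  · intro x
    rw [rad_scale n ψ hL x, norm_mul, Complex.norm_real, Real.norm_of_nonneg (by positivity)]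
    have h1 := hdec (Lam • x)
    rw [norm_smul, Real.norm_of_nonneg hL.le] at h1
    have h2 : 1 ≤ 1 + Lam * ‖x‖ := by
      have := mul_nonneg hL.le (norm_nonneg x)
      linarith
    have h3 : (1 + Lam * ‖x‖) ^ N ≤ (1 + Lam * ‖x‖) ^ (N + (n + 1)) :=
      pow_le_pow_right₀ h2 (by omega)
    have h4 : ‖MK (fun ξ : EE n => ((ψ ‖ξ‖ : ℝ) : ℂ)) (Lam • x)‖ ≤
        (D + C1 + D * J) * ((1 + Lam * ‖x‖) ^ N)⁻¹ := by
      rw [le_mul_inv_iff₀ (by positivity)]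
      calc _ ≤ ‖MK (fun ξ : EE n => ((ψ ‖ξ‖ : ℝ) : ℂ)) (Lam • x)‖ *
            (1 + Lam * ‖x‖) ^ (N + (n + 1)) := by gcongr
        _ ≤ D := by rw [mul_comm]; exact h1
        _ ≤ _ := by linarith
    calc Lam ^ n * ‖MK (fun ξ : EE n => ((ψ ‖ξ‖ : ℝ) : ℂ)) (Lam • x)‖
        ≤ Lam ^ n * ((D + C1 + D * J) * ((1 + Lam * ‖x‖) ^ N)⁻¹) := by gcongr
      _ = _ := by ring
  · have hpt : ∀ x : EE n, ‖MK (fun ξ : EE n => ((ψ (‖ξ‖ / Lam) : ℝ) : ℂ)) x‖ₑ *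
        ENNReal.ofReal ((1 + Lam * ‖x‖) ^ N) ≤ ENNReal.ofReal (Lam ^ n * D) *
          ENNReal.ofReal ((1 + ‖Lam • x‖) ^ (-((n : ℝ) + 1))) := by
      intro x
      rw [rad_scale n ψ hL x, ← ofReal_norm, norm_mul, Complex.norm_real,
        Real.norm_of_nonneg (by positivity), ← ENNReal.ofReal_mul (by positivity),
        ← ENNReal.ofReal_mul (by positivity)]
      refine ENNReal.ofReal_le_ofReal ?_
      have h1 := hdec (Lam • x)
      have e1 : ‖Lam • x‖ = Lam * ‖x‖ := by rw [norm_smul, Real.norm_of_nonneg hL.le]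
      rw [e1] at h1 ⊢
      have h2 : 0 < 1 + Lam * ‖x‖ := by positivity
      rw [Real.rpow_neg h2.le, show (n : ℝ) + 1 = ((n + 1 : ℕ) : ℝ) by push_cast; ring,
        Real.rpow_natCast, mul_assoc, mul_assoc]
      refine mul_le_mul_of_nonneg_left ?_ (by positivity)
      rw [le_mul_inv_iff₀ (by positivity)]
      calc _ = (1 + Lam * ‖x‖) ^ (N + (n + 1)) *
            ‖MK (fun ξ : EE n => ((ψ ‖ξ‖ : ℝ) : ℂ)) (Lam • x)‖ := by ring
        _ ≤ D := h1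
    calc ∫⁻ x : EE n, ‖MK (fun ξ : EE n => ((ψ (‖ξ‖ / Lam) : ℝ) : ℂ)) x‖ₑ *
          ENNReal.ofReal ((1 + Lam * ‖x‖) ^ N)
        ≤ ∫⁻ x : EE n, ENNReal.ofReal (Lam ^ n * D) *
          ENNReal.ofReal ((1 + ‖Lam • x‖) ^ (-((n : ℝ) + 1))) := lintegral_mono hpt
      _ = ENNReal.ofReal (Lam ^ n * D) * (ENNReal.ofReal ((Lam ^ n)⁻¹) * ENNReal.ofReal J) := by
          rw [lintegral_const_mul' _ _ ENNReal.ofReal_ne_top,
            lint_smul n (fun y => ENNReal.ofReal ((1 + ‖y‖) ^ (-((n : ℝ) + 1)))) hL, hJe]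
      _ = ENNReal.ofReal (D * J) := by
          rw [← ENNReal.ofReal_mul (by positivity), ← ENNReal.ofReal_mul (by positivity)]
          congr 1
          field_simp
      _ ≤ _ := ENNReal.ofReal_le_ofReal (by linarith)

end Pool.Agent.H14.TN
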